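import Pool.Agent.H402.FR.Top

/-! # Full-rank minors for all families of partitions with at most two non-crossing maximal
elements; in order three, for every family except those giving the slice rank -/

open scoped BigOperators
open Finset

universe u

namespace Pool.Agent.Results.MP_b48e27_co.AllButSlice

open Pool.Agent.H402.FR

/-- The property asked for in Q1 for the family `R` of partitions of `[d]`, with the function `G`:
over every field, every order-`d` tensor `T` with `rk_R T ≥ G l` has a minor all of whose sides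
have size at most `l` and whose `R`-rank is at least `l`.  (`RankLT R T X k` says that the
restriction of `T` to the box `∏ X α` is a sum of fewer than `k` tensors of `R`-rank at most one.) -/
def FullMinors {d : ℕ} (R : Set (Finpartition (univ : Finset (Fin d)))) (G : ℕ → ℕ) : Prop :=
  ∀ (𝕜 : Type u) [Field 𝕜] (n : Fin d → ℕ) (T : ((α : Fin d) → Fin (n α)) → 𝕜) (l : ℕ),
    ¬ RankLT R T (fun _ => univ) (G l) →
    ∃ X : (α : Fin d) → Finset (Fin (n α)), (∀ α, (X α).card ≤ l) ∧ ¬ RankLT R T X l

/-- Either `R` has a greatest element, or `R` contains two bipartitions `{I, Iᶜ}` and `{J, Jᶜ}`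
with `I`, `J` disjoint such that each member of `R` refines one of them. -/
def AtMostTwo {d : ℕ} (R : Set (Finpartition (univ : Finset (Fin d)))) : Prop :=
  (∃ P₀ ∈ R, ∀ P ∈ R, P ≤ P₀) ∨
  ∃ B₁ ∈ R, ∃ B₂ ∈ R, ∃ I J : Finset (Fin d), I ∈ B₁.parts ∧ Iᶜ ∈ B₁.parts ∧ J ∈ B₂.parts ∧
    Jᶜ ∈ B₂.parts ∧ Disjoint I J ∧ ∀ P ∈ R, P ≤ B₁ ∨ P ≤ B₂

theorem rankLT_mono {F : Type*} [Field F] {d : ℕ} {Q : Fin d → Type*}
    {R : Set (Finpartition (univ : Finset (Fin d)))} {T : (∀ α, Q α) → F}
    {X : ∀ α, Finset (Q α)} {k k' : ℕ} (h : k ≤ k') (hT : RankLT R T X k) : RankLT R T X k' := by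
  obtain ⟨r, hr, H⟩ := hT
  exact ⟨r, lt_of_lt_of_le hr h, H⟩

theorem fullMinors_of {d : ℕ} {R : Set (Finpartition (univ : Finset (Fin d)))}
    (hR : AtMostTwo R) : FullMinors.{u} R (fun l => 2 * l ^ 2) := by
  intro 𝕜 _ n T l hT
  rcases hR with ⟨P₀, hP₀, h⟩ | ⟨B₁, hB₁, B₂, hB₂, I, J, hI, hI', hJ, hJ', hIJ, h⟩
  · refine full_top hP₀ h T l fun h1 => hT (rankLT_mono ?_ h1)
    nlinarith [Nat.zero_le l, sq_nonneg (l : ℤ)]
  · exact full_two hB₁ hB₂ hI hI' hJ hJ' hIJ h T l hT

/-- the partitions of `Fin 3` -/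
theorem classify (P : Finpartition (univ : Finset (Fin 3))) (hP : 2 ≤ P.parts.card) :
    P = ⊥ ∨ ∃ α : Fin 3, P.parts = {{α}, {α}ᶜ} := by
  classical
  by_cases hall : ∀ S ∈ P.parts, S.card ≤ 1
  · left
    refine le_antisymm (fun S hS => ?_) bot_le
    obtain ⟨a, ha⟩ := Finset.nonempty_iff_ne_empty.2 (P.ne_bot hS)
    refine ⟨{a}, Finpartition.mem_bot_iff.2 ⟨a, mem_univ a, rfl⟩, ?_⟩
    intro b hb
    rw [Finset.mem_singleton]
    exact Finset.card_le_one.1 (hall S hS) b hb a ha
  · right
    push Not at hall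
    obtain ⟨S, hS, hSc⟩ := hall
    obtain ⟨S', hS', hne⟩ := Finset.exists_mem_ne (by omega : 1 < P.parts.card) S
    obtain ⟨α, hα⟩ := Finset.nonempty_iff_ne_empty.2 (P.ne_bot hS')
    have hd : Disjoint S S' := P.disjoint hS hS' hne.symm
    have hc : S.card + S'.card ≤ 3 := by
      rw [← Finset.card_union_of_disjoint hd]
      simpa using Finset.card_le_univ (S ∪ S')
    have hS'1 : S'.card = 1 := by
      have : 0 < S'.card := Finset.card_pos.2 ⟨α, hα⟩
      omega
    have e1 : S' = {α} := by
      symm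
      exact Finset.eq_of_subset_of_card_le (Finset.singleton_subset_iff.2 hα) (by simp [hS'1])
    have e2 : S = {α}ᶜ := by
      refine Finset.eq_of_subset_of_card_le ?_ ?_
      · intro b hb
        rw [Finset.mem_compl, ← e1]
        exact Finset.disjoint_left.1 hd hb
      · rw [Finset.card_compl]
        simp
        omega
    refine ⟨α, parts_eq ?_ ?_⟩
    · rw [← e1]; exact hS'
    · rw [← e2]; exact hS

theorem ext_parts {P P' : Finpartition (univ : Finset (Fin 3))} (h : P.parts = P'.parts) :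
    P = P' := Finpartition.ext h

/-- In order three every family except those containing all three bipartitions is covered. -/
theorem atMostTwo_three (R : Set (Finpartition (univ : Finset (Fin 3)))) (hne : R.Nonempty)
    (h2 : ∀ P ∈ R, 2 ≤ P.parts.card) (hB : ∃ P, P.parts.card = 2 ∧ P ∉ R) : AtMostTwo R := by
  classical
  obtain ⟨P₁, hP₁, hP₁R⟩ := hB
  have hcl := fun P hP => classify P (h2 P hP)
  have hγ : ∃ γ : Fin 3, P₁.parts = {{γ}, {γ}ᶜ} := by
    rcases classify P₁ (by omega) with h | h
    · exfalso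
      rw [h] at hP₁
      simp at hP₁
    · exact h
  obtain ⟨γ, hγ⟩ := hγ
  by_cases hA : ∃ B₁ ∈ R, ∃ α : Fin 3, B₁.parts = {{α}, {α}ᶜ}
  · obtain ⟨B₁, hB₁, α, hα⟩ := hA
    by_cases hA' : ∃ B₂ ∈ R, ∃ β : Fin 3, B₂.parts = {{β}, {β}ᶜ} ∧ β ≠ α
    · obtain ⟨B₂, hB₂, β, hβ, hne'⟩ := hA'
      refine Or.inr ⟨B₁, hB₁, B₂, hB₂, {α}, {β}, by simp [hα], by simp [hα], by simp [hβ],
        by simp [hβ], by simpa using hne'.symm, fun P hP => ?_⟩
      rcases hcl P hP with rfl | ⟨δ, hδ⟩
      · exact Or.inl bot_le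
      · have hδγ : δ ≠ γ := by
          rintro rfl
          apply hP₁R
          rwa [ext_parts (hγ.trans hδ.symm)]
        have hαγ : α ≠ γ := by
          rintro rfl
          apply hP₁R
          rwa [ext_parts (hγ.trans hα.symm)]
        have hβγ : β ≠ γ := by
          rintro rfl
          apply hP₁R
          rwa [ext_parts (hγ.trans hβ.symm)]
        have : δ = α ∨ δ = β := by omega
        rcases this with rfl | rfl
        · exact Or.inl (le_of_eq (ext_parts (hδ.trans hα.symm)))
        · exact Or.inr (le_of_eq (ext_parts (hδ.trans hβ.symm)))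
    · push Not at hA'
      refine Or.inl ⟨B₁, hB₁, fun P hP => ?_⟩
      rcases hcl P hP with rfl | ⟨δ, hδ⟩
      · exact bot_le
      · have := hA' P hP δ hδ
        subst this
        exact le_of_eq (ext_parts (hδ.trans hα.symm))
  · push Not at hA
    obtain ⟨P, hP⟩ := hne
    have hall : ∀ P ∈ R, P = ⊥ := fun P hP => by
      rcases hcl P hP with h | ⟨δ, hδ⟩
      · exact h
      · exact absurd hδ (hA P hP δ)
    exact Or.inl ⟨P, hP, fun P' hP' => by rw [hall P hP, hall P' hP']⟩

/-- Q1 holds with `G l = 2 l ^ 2`, over every field, for every family `R` with a greatest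
element or with two non-crossing maximal bipartitions.  In particular (second part) for `d = 3` it
holds for every non-empty `R` (of partitions with at least two parts) that does not contain all the
partitions into exactly two parts, i.e. for every `R`-rank of order-three tensors except the slice
rank. -/
theorem result :
    (∀ (d : ℕ) (R : Set (Finpartition (univ : Finset (Fin d)))), AtMostTwo R →
      FullMinors.{u} R (fun l => 2 * l ^ 2)) ∧
    ∀ R : Set (Finpartition (univ : Finset (Fin 3))), R.Nonempty →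
      (∀ P ∈ R, 2 ≤ P.parts.card) → (∃ P, P.parts.card = 2 ∧ P ∉ R) →
      FullMinors.{u} R (fun l => 2 * l ^ 2) :=
  ⟨fun _ _ h => fullMinors_of h, fun R h1 h2 h3 => fullMinors_of (atMostTwo_three R h1 h2 h3)⟩

end Pool.Agent.Results.MP_b48e27_co.AllButSlice
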