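import Pool.Agent.H402.FF.All
import Pool.Agent.Results.MP_b48e27_co.AllButSlice
import Pool.Agent.H402.FR.Bip

/-! # Full-rank minors for tensors over finite fields: all partition ranks of order three

For the slice rank of order-three tensors with boundedly many values (for instance, all tensors over
a finite field), Q1 has a positive answer, for all `l`.

Idea of the proof.  Otherwise there are tensors `T_G` with at most `s` values, of slice rank at
least `G`, without full minors of size `l`.  A compactness argument in the ultraproduct gives
sequences `x_i, x_i', y_i, y_i', z_i, z_i'` on which the tensor depends only on the order type of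
the three indices, and whose third differences at equal indices do not vanish.  Such a tensor is
described by thirteen parameters, six of which say that it is not a sum of functions of two of the
indices; if one of the six does not vanish, explicit choices of `l` indices in each direction
(found according to the other parameters) give minors of slice rank `l`. -/

open scoped BigOperators
open Finset

universe u

namespace Pool.Agent.Results.MP_b48e27_co.BoundedValues

open Pool.Agent.H402.FR Pool.Agent.H402.FF

/-- The property asked for in Q1 for the family `R` of partitions of `[d]`, with the function `G`,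
for tensors with at most `s` different values: over every field, every such order-`d` tensor `T`
with `rk_R T ≥ G l` has a minor all of whose sides have size at most `l` and whose `R`-rank is at
least `l`.  (`RankLT R T X k` says that the restriction of `T` to the box `∏ X α` is a sum of fewer
than `k` tensors of `R`-rank at most one.) -/
def FullMinors {d : ℕ} (R : Set (Finpartition (univ : Finset (Fin d)))) (s : ℕ) (G : ℕ → ℕ) :
    Prop :=
  ∀ (𝕜 : Type u) [Field 𝕜] (n : Fin d → ℕ) (T : ((α : Fin d) → Fin (n α)) → 𝕜),
    (Set.range T).ncard ≤ s → ∀ l : ℕ, ¬ RankLT R T (fun _ => univ) (G l) →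
    ∃ X : (α : Fin d) → Finset (Fin (n α)), (∀ α, (X α).card ≤ l) ∧ ¬ RankLT R T X l

/-- `[d]` is the union of three disjoint non-empty sets `I 0, I 1, I 2`, the family `R` contains the
three bipartitions `{I j, (I j)ᶜ}`, and each member of `R` refines one of them. -/
def ThreeBlocks {d : ℕ} (R : Set (Finpartition (univ : Finset (Fin d)))) : Prop :=
  ∃ (I : Fin 3 → Finset (Fin d)) (B : Fin 3 → Finpartition (univ : Finset (Fin d))),
    (∀ α, ∃! j, α ∈ I j) ∧ (∀ j, B j ∈ R ∧ I j ∈ (B j).parts ∧ (I j)ᶜ ∈ (B j).parts) ∧
    ∀ P ∈ R, ∃ j, P ≤ B j

theorem threeBlocks {d : ℕ} (R : Set (Finpartition (univ : Finset (Fin d)))) (hR : ThreeBlocks R)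
    (s : ℕ) : ∃ G, FullMinors.{u} R s G := by
  classical
  obtain ⟨I, B, hI, hB, hP⟩ := hR
  choose c hc hc' using hI
  have hblk : ∀ j, blk c j = I j := by
    intro j
    ext α
    rw [mem_blk]
    constructor
    · rintro rfl
      exact hc α
    · intro h
      exact (hc' α j h).symm
  have hS : SliceFamily R c B := ⟨fun j => by rw [hblk]; exact hB j, hP⟩
  exact three_blocks s hS

/-- For tensors with at most `s` values, Q1 has a positive answer for the families with three
disjoint maximal blocks and, for `d = 3`, for every non-empty family `R` of partitions (with at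
least two parts).  In particular this holds for all tensors over a field with at most `s`
elements. -/
theorem result (s : ℕ) :
    (∀ (d : ℕ) (R : Set (Finpartition (univ : Finset (Fin d)))), ThreeBlocks R →
      ∃ G, FullMinors.{u} R s G) ∧
    ∀ R : Set (Finpartition (univ : Finset (Fin 3))), R.Nonempty →
      (∀ P ∈ R, 2 ≤ P.parts.card) → ∃ G, FullMinors.{u} R s G := by
  refine ⟨fun d R h => threeBlocks R h s, fun R hne h2 => ?_⟩
  by_cases hall : ∀ P, P.parts.card = 2 → P ∈ R
  · refine threeBlocks R ⟨fun j => {j}, bip3, fun α => ⟨α, by simp, fun j hj => ?_⟩,
      fun j => ⟨hall _ (bip3_card j), ?_, ?_⟩, fun P hP => le_bip P (h2 P hP)⟩ s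
    · exact (Finset.mem_singleton.1 hj).symm
    · rw [bip3_parts]
      exact Finset.mem_insert_self _ _
    · rw [bip3_parts]
      exact Finset.mem_insert_of_mem (Finset.mem_singleton_self _)
  · push Not at hall
    have h := (AllButSlice.result.{u}).2 R hne h2 hall
    exact ⟨fun l => 2 * l ^ 2, fun 𝕜 _ n T _ l hT => h 𝕜 n T l hT⟩

end Pool.Agent.Results.MP_b48e27_co.BoundedValues
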