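import Pool.Agent.H402.HD.All
import Pool.Agent.H402.FR.Bip
import Pool.Agent.Results.MP_b48e27_co.AllButSlice

/-! # Full-rank minors over fields of characteristic two: all partition ranks of order three

Over every field of characteristic two Q1 has a positive answer for `d = 3` and all families `R`,
with `G l = 2 l ^ 2`; for the slice rank the bound is `l ^ 2`.

Idea of the proof for the slice rank.  For a tensor `M` of size `k` put
`hdet M = ∑ σ τ, ∏ i, M (i, σ i, τ i)`.  In characteristic two this is an alternating multilinear
function of the rows of `M` in each of the three directions, and it vanishes if the slice rank of `M`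
is less than `k`.  If `hdet M ≠ 0` for a minor of size `k`, but `hdet M' = 0` for all its
extensions of size `k + 1`, then the expansion of `hdet M'` expresses `T` as a sum of less than
`(k + 1) ^ 2` products of functions of complementary sets of coordinates. -/

open scoped BigOperators
open Finset

universe u

namespace Pool.Agent.Results.MP_b48e27_co.CharacteristicTwo

open Pool.Agent.H402.FR Pool.Agent.H402.HD

/-- The property asked for in Q1 for the family `R` of partitions of `[d]`, with the function `G`,
over fields of characteristic two: every order-`d` tensor `T` with `rk_R T ≥ G l` has a minor all of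
whose sides have size at most `l` and whose `R`-rank is at least `l`.  (`RankLT R T X k` says that
the restriction of `T` to the box `∏ X α` is a sum of fewer than `k` tensors of `R`-rank at most
one.) -/
def FullMinorsTwo {d : ℕ} (R : Set (Finpartition (univ : Finset (Fin d)))) (G : ℕ → ℕ) : Prop :=
  ∀ (𝕜 : Type u) [Field 𝕜] [CharP 𝕜 2] (n : Fin d → ℕ) (T : ((α : Fin d) → Fin (n α)) → 𝕜) (l : ℕ),
    ¬ RankLT R T (fun _ => univ) (G l) →
    ∃ X : (α : Fin d) → Finset (Fin (n α)), (∀ α, (X α).card ≤ l) ∧ ¬ RankLT R T X l

theorem neg_one_eq (𝕜 : Type u) [Field 𝕜] [CharP 𝕜 2] : (-1 : 𝕜) = 1 := by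
  have h : (1 : 𝕜) + 1 = 0 := by
    have := CharP.cast_eq_zero 𝕜 2
    rw [← this]
    norm_num
  rw [neg_eq_iff_add_eq_zero]
  exact h

/-- in order three partition rank and slice rank coincide -/
theorem SLd_of_PLd {F : Type u} [Field F] {X : Fin 3 → Type} {T : (∀ α, X α) → F} {k : ℕ}
    (h : PLd T k) : SLd T k := by
  classical
  have hcl : ∀ S : Finset (Fin 3), S.Nonempty → S ≠ univ → ∃ α : Fin 3, S = {α} ∨ Sᶜ = {α} := by
    decide
  obtain ⟨r, hr, S, f, g, hS, hf, hg, hT⟩ := h
  choose α hα using fun t => hcl (S t) (hS t).1 (hS t).2
  refine ⟨r, hr, α, fun t => if S t = {α t} then f t else g t,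
    fun t => if S t = {α t} then g t else f t, fun t x y hxy => ?_, fun t x y hxy => ?_,
    fun x => ?_⟩
  · by_cases h1 : S t = {α t}
    · simp only [h1, if_true]
      refine hf t x y fun β hβ => ?_
      rw [h1, Finset.mem_singleton] at hβ
      rw [hβ]
      exact hxy
    · simp only [h1, if_false]
      have h2 := (hα t).resolve_left h1
      refine hg t x y fun β hβ => ?_
      have : β ∈ (S t)ᶜ := Finset.mem_compl.2 hβ
      rw [h2, Finset.mem_singleton] at this
      rw [this]
      exact hxy
  · by_cases h1 : S t = {α t}
    · simp only [h1, if_true]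
      refine hg t x y fun β hβ => hxy β ?_
      rw [h1, Finset.mem_singleton] at hβ
      exact hβ
    · simp only [h1, if_false]
      have h2 := (hα t).resolve_left h1
      refine hf t x y fun β hβ => hxy β ?_
      rintro rfl
      have : α t ∈ (S t)ᶜ := by rw [h2]; exact Finset.mem_singleton_self _
      exact (Finset.mem_compl.1 this) hβ
  · rw [hT]
    refine Finset.sum_congr rfl fun t _ => ?_
    by_cases h1 : S t = {α t}
    · simp only [h1, if_true]
    · simp only [h1, if_false]
      ring

/-- **Order three, characteristic two.** For every non-empty family `R` of partitions of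
`{1, 2, 3}` (with at least two parts), Q1 holds over all fields of characteristic two with
`G l = 2 l ^ 2`. -/
theorem result (R : Set (Finpartition (univ : Finset (Fin 3)))) (hne : R.Nonempty)
    (h2 : ∀ P ∈ R, 2 ≤ P.parts.card) : FullMinorsTwo.{u} R (fun l => 2 * l ^ 2) := by
  by_cases hall : ∀ P, P.parts.card = 2 → P ∈ R
  · intro 𝕜 _ _ n T l hT
    have hR : SliceFam R (m := 3) id bip3 := by
      refine ⟨fun j => ⟨hall _ (bip3_card j), ?_, ?_⟩, fun P hP => le_bip P (h2 P hP)⟩
      · rw [bip3_parts]
        have : blk (d := 3) (m := 3) id j = {j} := by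
          ext α
          simp [mem_blk]
        rw [this]
        exact Finset.mem_insert_self _ _
      · rw [bip3_parts]
        have : blk (d := 3) (m := 3) id j = {j} := by
          ext α
          simp [mem_blk]
        rw [this]
        exact Finset.mem_insert_of_mem (Finset.mem_singleton_self _)
    let T' : (Fin 3 → ((α : Fin 3) → Fin (n α))) → 𝕜 := fun x => T (mixm id x)
    have hT' : ¬ PLd T' (l ^ 2) := by
      intro h
      refine hT (rankLT_of_SLd hR ((SLd_of_PLd h).mono ?_))
      nlinarith [Nat.zero_le (l ^ 2)]
    obtain ⟨b, hb⟩ := even_or_two (d := 2) (by norm_num)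
      (by rw [neg_one_eq, one_pow]) T' l hT'
    exact minor_of hR b hb
  · push Not at hall
    have h := (AllButSlice.result.{u}).2 R hne h2 hall
    exact fun 𝕜 _ _ n T l hT => h 𝕜 n T l hT

end Pool.Agent.Results.MP_b48e27_co.CharacteristicTwo
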