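import Pool.Agent.H402.HD.All

/-! # Full-rank minors for the slice rank of order-four tensors

Q1 has a positive answer for the slice rank of tensors of order four (more generally, for the families
of partitions of `[d]` whose maximal elements are four bipartitions with disjoint blocks covering
`[d]`) over all fields of characteristic zero or larger than `l`.

Idea of the proof.  The hyperdeterminant of Cayley of order four vanishes on tensors of size `l` and
slice rank less than `l`, and it is an alternating multilinear function of the rows in each
direction; so if it vanishes for all minors of size `l` of `T`, it vanishes for all the tensors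
of size `l` obtained from `T` by linear combinations of rows.  The expansion of the
hyperdeterminant shows that `T` is a sum of a bounded number of slices and of products of bilinear
forms; if these forms have large rank, `T` specialises to the tensor product of two identity
matrices of size `l`, whose hyperdeterminant is `l !`; if not, products can be replaced by slices. -/

open scoped BigOperators
open Finset

universe u

namespace Pool.Agent.Results.MP_b48e27_co.OrderFour

open Pool.Agent.H402.FR Pool.Agent.H402.HD

/-- `[d]` is the union of four disjoint non-empty sets `I 0, …, I 3`, the family `R` contains the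
four bipartitions `{I j, (I j)ᶜ}`, and each member of `R` refines one of them.  For `d = 4` and
`I j = {j}` the `R`-rank is the slice rank. -/
def FourBlocks {d : ℕ} (R : Set (Finpartition (univ : Finset (Fin d)))) : Prop :=
  ∃ (I : Fin 4 → Finset (Fin d)) (B : Fin 4 → Finpartition (univ : Finset (Fin d))),
    (∀ α, ∃! j, α ∈ I j) ∧ (∀ j, B j ∈ R ∧ I j ∈ (B j).parts ∧ (I j)ᶜ ∈ (B j).parts) ∧
    ∀ P ∈ R, ∃ j, P ≤ B j

/-- For every `l` there is a number `G` such that over every field in which `l !` is invertible
(characteristic zero or larger than `l`) each order-`d` tensor `T` with `rk_R T ≥ G`, where `R` has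
four disjoint maximal blocks (for instance `d = 4`, slice rank), has a minor with all sides of size
at most `l` and `R`-rank at least `l`.  (`RankLT R T X k` says that the restriction of `T` to the
box `∏ X α` is a sum of fewer than `k` tensors of `R`-rank at most one.) -/
theorem result (l : ℕ) : ∃ G : ℕ, ∀ (d : ℕ) (R : Set (Finpartition (univ : Finset (Fin d)))),
    FourBlocks R → ∀ (𝕜 : Type u) [Field 𝕜], (l.factorial : 𝕜) ≠ 0 → ∀ (n : Fin d → ℕ)
    (T : ((α : Fin d) → Fin (n α)) → 𝕜), ¬ RankLT R T (fun _ => univ) G →
    ∃ X : (α : Fin d) → Finset (Fin (n α)), (∀ α, (X α).card ≤ l) ∧ ¬ RankLT R T X l := by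
  classical
  obtain ⟨G, hG⟩ := order_four.{u} l
  refine ⟨G, fun d R hR 𝕜 _ hl n T hT => ?_⟩
  obtain ⟨I, B, hI, hB, hP⟩ := hR
  choose c hc hc' using hI
  have hblk : ∀ j, blk c j = I j := by
    intro j
    ext α
    rw [mem_blk]
    constructor
    · rintro rfl
      exact hc α
    · intro h
      exact (hc' α j h).symm
  have hS : SliceFam R c B := ⟨fun j => by rw [hblk]; exact hB j, hP⟩
  obtain ⟨b, hb⟩ := hG 𝕜 hl ((α : Fin d) → Fin (n α)) (fun x => T (mixm c x))
    fun h => hT (rankLT_of_SLd hS h)
  exact minor_of hS b hb

end Pool.Agent.Results.MP_b48e27_co.OrderFour
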